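import Pool.Agent.Lib.MP_5d404d_lc.Deg.Degree

set_option autoImplicit false

/-!
# ACYC-ST is NP-hard for graphs of degree `2 k + 1`

For every fixed `k ≥ 2` there is a polynomial-time many-one reduction, computed by a Turing machine
in the sense of Mathlib, from the satisfiability problem for CNF formulas to ACYC-ST restricted to
the instances with parameter `k`, without loops, in which every vertex different from `s` and `t` has
degree `2 k` or `2 k + 1`.
-/

namespace Pool.Agent.Results.MP_5d404d_lc.SharpDegreeHardness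

open Pool.Agent.Lib.MP_5d404d_lc Pool.Agent.Lib.PolyTime

theorem result (k : ℕ) (hk : 2 ≤ k) :
    ∃ f : Formula → Inst,
      Nonempty (Turing.TM2ComputableInPolyTime (code : Formula → List Bool)
        (code : Inst → List Bool) f) ∧
      ∀ φ : Formula, (f φ).k = k ∧ (f φ).s ≠ (f φ).t ∧ (∀ e ∈ (f φ).edges, e.1 ≠ e.2) ∧
        (∀ v, v ≠ (f φ).s → v ≠ (f φ).t →
          (f φ).degree v = 2 * k ∨ (f φ).degree v = 2 * k + 1) ∧
        (φ.Sat ↔ (f φ).Yes) := by
  refine ⟨Deg.redD k, (Deg.pt_redD k).computable, fun φ => ⟨rfl, ?_, ?_, ?_, Deg.redD_yes hk φ⟩⟩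
  · intro h
    exact absurd ((Deg.eV (nv φ) φ.length).injective h) (by simp)
  · intro e he
    obtain ⟨e', -, rfl⟩ := List.mem_map.mp he
    intro h
    exact Deg.no_loop_dgr _ _ e' ((Deg.eV (nv φ) φ.length).injective h)
  · exact fun v hs ht => Deg.degree_redD hk φ v hs ht

end Pool.Agent.Results.MP_5d404d_lc.SharpDegreeHardness
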